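import Pool.Agent.X93.HW.Main

/-!
# The admissible weights for the Hilbert transform on functions of mean zero

`U` is admissible if and only if one of the weights `U`, `U / |x - x0| ^ p` (for some real `x0`),
`U / (1 + x ^ 2) ^ (p / 2)` is a Muckenhoupt weight.

Necessity is proved in the form with the condition `A_p`.  The equivalence is proved with the class of
the weights for which the Hilbert transform is bounded without the mean value condition; by the
classical theorem of Hunt, Muckenhoupt and Wheeden (Coifman and Fefferman) this class is `A_p`.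

Idea.  If `U ^ (-1/(p-1))` is not integrable at infinity (at a point `x0`), the mean value can be
corrected at no cost at infinity (at `x0`), which gives the first (second) case.  Otherwise the mean
value is a bounded functional on `L ^ p (U)`, and the identity
`H (G / (y + i)) = (H G + const) / (x + i)` gives the third case.
-/

set_option autoImplicit false

open MeasureTheory Filter Topology Set
open scoped ENNReal NNReal

namespace Pool.Agent.Results.MP_945c9c_an.AdmissibleWeights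

/-- `(1 / π) ∫_{|y - x| > δ} f(y) / (x - y) dy` -/
noncomputable def truncated (f : ℝ → ℝ) (δ x : ℝ) : ℝ :=
  1 / Real.pi * ∫ y in {y : ℝ | δ < |y - x|}, f y / (x - y)

/-- `g = H f`: for almost every `x` the truncated integrals converge to `g x` as `δ` decreases to `0` -/
def IsHilbertTransform (f g : ℝ → ℝ) : Prop :=
  ∀ᵐ x : ℝ, Tendsto (fun δ => truncated f δ x) (𝓝[>] 0) (𝓝 (g x))

/-- a weight: measurable, nonnegative, locally integrable, not almost everywhere zero -/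
structure IsWeight (U : ℝ → ℝ) : Prop where
  measurable : Measurable U
  nonneg : ∀ x, 0 ≤ U x
  locallyIntegrable : LocallyIntegrable U
  nonzero : ¬ (U =ᵐ[volume] 0)

/-- `∫ |f| ^ p U` -/
noncomputable def weighted (p : ℝ) (U f : ℝ → ℝ) : ℝ≥0∞ :=
  ∫⁻ x : ℝ, ENNReal.ofReal (|f x| ^ p * U x)

/-- `∫ |H f| ^ p U ≤ C ∫ |f| ^ p U` for all integrable `f` with mean value zero -/
def Admissible (p : ℝ) (U : ℝ → ℝ) : Prop :=
  IsWeight U ∧ ∃ C : ℝ≥0, ∀ f g : ℝ → ℝ, Integrable f → ∫ x, f x = 0 → IsHilbertTransform f g →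
    weighted p U g ≤ C * weighted p U f

/-- `∫ |H f| ^ p W ≤ C ∫ |f| ^ p W` for all integrable `f` -/
def BoundedForAll (p : ℝ) (W : ℝ → ℝ) : Prop :=
  IsWeight W ∧ ∃ C : ℝ≥0, ∀ f g : ℝ → ℝ, Integrable f → IsHilbertTransform f g →
    weighted p W g ≤ C * weighted p W f

/-- the class `A_p` of Muckenhoupt -/
def MuckenhouptAp (p : ℝ) (W : ℝ → ℝ) : Prop :=
  IsWeight W ∧ (∀ᵐ x : ℝ, 0 < W x) ∧ ∃ K : ℝ≥0, ∀ a b : ℝ, a < b →
    ((∫⁻ x in Ioo a b, ENNReal.ofReal (W x)) / ENNReal.ofReal (b - a))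
      * ((∫⁻ x in Ioo a b, ENNReal.ofReal (W x) ^ (-(1 / (p - 1)))) / ENNReal.ofReal (b - a))
        ^ (p - 1) ≤ K

/-- `P` holds for `U`, or for `U / |x - x0| ^ p` for some real `x0`, or for
`U / (1 + x ^ 2) ^ (p / 2)` -/
def OneOfThree (p : ℝ) (P : (ℝ → ℝ) → Prop) (U : ℝ → ℝ) : Prop :=
  P U ∨ (∃ x0 : ℝ, P (fun x => U x / |x - x0| ^ p)) ∨ P (fun x => U x / (1 + x ^ 2) ^ (p / 2))

open Pool.Agent.X93.HW in
lemma wt_iff {U : ℝ → ℝ} : IsWeight U ↔ Wt U :=
  ⟨fun h => ⟨h.1, h.2, h.3, h.4⟩, fun h => ⟨h.1, h.2, h.3, h.4⟩⟩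

open Pool.Agent.X93.HW in
lemma adm_eq {p : ℝ} (hp : 1 < p) {U : ℝ → ℝ} : Admissible p U ↔ Wt U ∧ ∃ C : ℝ≥0, Adm p U C := by
  constructor
  · rintro ⟨h1, h2⟩
    exact ⟨wt_iff.1 h1, (adm_iff hp h1.nonneg).2 h2⟩
  · rintro ⟨h1, h2⟩
    exact ⟨wt_iff.2 h1, (adm_iff hp h1.nn).1 h2⟩

open Pool.Agent.X93.HW in
lemma bd_eq {p : ℝ} (hp : 1 < p) {U : ℝ → ℝ} : BoundedForAll p U ↔ Wt U ∧ ∃ C : ℝ≥0, Bd p U C := by
  constructor
  · rintro ⟨h1, h2⟩
    exact ⟨wt_iff.1 h1, (bd_iff hp h1.nonneg).2 h2⟩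
  · rintro ⟨h1, h2⟩
    exact ⟨wt_iff.2 h1, (bd_iff hp h1.nn).1 h2⟩

open Pool.Agent.X93.HW in
lemma bd_ap {p : ℝ} (hp : 1 < p) {U : ℝ → ℝ} (h : BoundedForAll p U) : MuckenhouptAp p U := by
  have h0 := h.1
  obtain ⟨hU, C, hC⟩ := (bd_eq hp).1 h
  have hDt : DD C ^ p ≠ ⊤ := by
    apply ENNReal.rpow_ne_top_of_nonneg (by linarith)
    unfold DD
    exact ENNReal.mul_ne_top (ENNReal.mul_ne_top ENNReal.ofReal_ne_top ENNReal.coe_ne_top)
      ENNReal.coe_ne_top
  refine ⟨h0, ae_pos hp hU hC, (DD C ^ p).toNNReal, fun a b hab => ?_⟩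
  rw [ENNReal.coe_toNNReal hDt]
  exact ap hp hU hC a b hab

open Pool.Agent.X93.HW in
lemma kk_fun {p : ℝ} (U : ℝ → ℝ) :
    (fun x => U x / (1 + x ^ 2) ^ (p / 2)) = fun x => U x / kk x ^ p := by
  ext x
  congr 1
  unfold kk
  rw [Real.sqrt_eq_rpow, ← Real.rpow_mul (by positivity)]
  congr 1
  ring

open Pool.Agent.X93.HW in
/-- **The admissible weights.**  Let `1 < p < ∞`.
(1) A weight `U` is admissible if and only if the Hilbert transform is bounded, without the condition on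
the mean value, for one of the weights `U`, `U / |x - x0| ^ p`, `U / (1 + x ^ 2) ^ (p / 2)`.
(2) If `U` is admissible, then one of these weights belongs to `A_p`. -/
theorem result (p : ℝ) (hp : 1 < p) (U : ℝ → ℝ) (hU : IsWeight U) :
    (Admissible p U ↔ OneOfThree p (BoundedForAll p) U) ∧
    (Admissible p U → OneOfThree p (MuckenhouptAp p) U) := by
  have hW := wt_iff.1 hU
  have h1 : Admissible p U ↔ OneOfThree p (BoundedForAll p) U := by
    rw [adm_eq hp]
    unfold OneOfThree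
    rw [kk_fun]
    simp only [bd_eq hp]
    have h := char hp hW
    constructor
    · rintro ⟨-, h2⟩
      rcases h.1 h2 with h3 | h3 | h3
      · exact Or.inl ⟨hW, h3⟩
      · exact Or.inr (Or.inl h3)
      · exact Or.inr (Or.inr ⟨wtC hp hW, h3⟩)
    · intro h2
      refine ⟨hW, h.2 ?_⟩
      rcases h2 with h3 | h3 | h3
      · exact Or.inl h3.2
      · exact Or.inr (Or.inl h3)
      · exact Or.inr (Or.inr h3.2)
  refine ⟨h1, fun h => ?_⟩
  rcases h1.1 h with h3 | ⟨x0, h3⟩ | h3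
  · exact Or.inl (bd_ap hp h3)
  · exact Or.inr (Or.inl ⟨x0, bd_ap hp h3⟩)
  · exact Or.inr (Or.inr (bd_ap hp h3))

end Pool.Agent.Results.MP_945c9c_an.AdmissibleWeights
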